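import Mathlib
import Pool.Agent.Lib.helper21.Tasks

set_option autoImplicit false

/-! A planar set that is two-coloured in every direction by Hamel bases. -/

namespace Pool.Agent.H.MP_c030b7_lc

open Cardinal Set Submodule Real Pool.Agent.Lib.helper21.Tasks

abbrev V := ℝ × ℝ

def det (d p : V) : ℝ := d.1 * p.2 - d.2 * p.1

noncomputable def ab (θ : ℝ) (p : V) : ℝ := cos θ * p.1 - sin θ * p.2

theorem avoid_line (u w : V) (hw : w ≠ 0) {T : Set (V × V)} (hT : #T < 𝔠) {Z : Set V}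
    (hZ : #Z < 𝔠) (h : ∀ z ∈ T, ∃ s : ℝ, det z.1 (u + s • w - z.2) ≠ 0) :
    ∃ s : ℝ, u + s • w ∉ Z ∧ ∀ z ∈ T, det z.1 (u + s • w - z.2) ≠ 0 := by
  by_contra hn
  have : (univ : Set ℝ) ⊆ (fun s : ℝ => u + s • w) ⁻¹' Z ∪
      (fun z => - det z.1 (u - z.2) / det z.1 w) '' T := fun s _ => by
    by_contra h1
    refine hn ⟨s, fun h2 => h1 (Or.inl h2), fun z hz e => h1 (Or.inr ⟨z, hz, ?_⟩)⟩
    obtain ⟨s', h3⟩ := h z hz
    have k : ∀ s : ℝ, det z.1 (u + s • w - z.2) = det z.1 (u - z.2) + s * det z.1 w := fun s => by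
      simp [det]; ring
    rw [k] at e h3
    have : det z.1 w ≠ 0 := fun h4 => h3 (by simpa [h4] using e)
    field_simp
    linarith
  have h1 := mk_le_mk_of_subset this
  rw [mk_univ, mk_real] at h1
  refine h1.not_gt ((mk_union_le _ _).trans_lt (add_lt_of_lt aleph0_le_continuum
    ((mk_preimage_of_injective _ _ fun a b e => ?_).trans_lt hZ) (mk_image_le.trans_lt hT)))
  exact smul_left_injective ℝ hw (add_left_cancel e)

theorem avoid {T : Set (V × V)} (hT : #T < 𝔠) {Z : Set V} (hZ : #Z < 𝔠) :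
    ∃ p ∉ Z, ∀ d q, (d, q) ∈ T → d ≠ 0 → det d (p - q) ≠ 0 := by
  have h1 : #{z ∈ T | z.1 ≠ 0} < 𝔠 := (mk_le_mk_of_subset (sep_subset _ _)).trans_lt hT
  obtain ⟨s, -, hs⟩ := avoid_line (1, 0) (0, 1) (by simp) (T := (fun z => (z.1, 0)) '' _)
    (mk_image_le.trans_lt h1) hZ (by
      rintro _ ⟨⟨⟨a, b⟩, q⟩, ⟨-, h⟩, rfl⟩
      by_cases hb : b = 0
      · exact ⟨1, by simpa [det, hb] using h⟩
      · exact ⟨0, by simpa [det] using hb⟩)
  obtain ⟨t, h2, h3⟩ := avoid_line 0 (1, s) (by simp) h1 hZ fun z hz => by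
    have := hs _ ⟨z, hz, rfl⟩
    by_contra h
    push Not at h
    have a := h 0
    have b := h 1
    simp [det] at a b this
    exact this (by linarith)
  exact ⟨_, h2, fun d q h h' => h3 (d, q) ⟨h, h'⟩⟩

theorem det_of_ab {θ} {p q p' q' : V} (h : ab θ p = ab θ q) (h' : ab θ p' = ab θ q') :
    det (p - q) (p' - q') = 0 := by
  simp only [ab, det, Prod.fst_sub, Prod.snd_sub] at *
  linear_combination (-((p.1 - q.1) * (p'.2 - q'.2) - (p.2 - q.2) * (p'.1 - q'.1))) *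
    sin_sq_add_cos_sq θ + (cos θ * (p'.2 - q'.2) + sin θ * (p'.1 - q'.1)) * h -
    (cos θ * (p.2 - q.2) + sin θ * (p.1 - q.1)) * h'

theorem bool3 {a b c : Bool} : a ≠ c → b ≠ c → a = b := by revert a b c; decide

abbrev X := V × (ℝ → Bool)

def Hs (S : Set X) (θ : ℝ) (b : Bool) : Set V := {p | ∃ κ, (p, κ) ∈ S ∧ κ θ = b}

def Good (S : Set X) : Prop := (∀ θ b, LinearIndepOn ℚ id (Hs S θ b)) ∧
  ∀ x ∈ S, ∀ y ∈ S, x ≠ y → x.1 ≠ y.1 ∧ ∀ θ, ab θ x.1 = ab θ y.1 → x.2 θ ≠ y.2 θ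

theorem Hs_mono {S T} (h : S ⊆ T) (θ b) : Hs S θ b ⊆ Hs T θ b := fun _ ⟨κ, h1, h2⟩ => ⟨κ, h h1, h2⟩

theorem Hs_sub (S θ b) : Hs S θ b ⊆ Prod.fst '' S := fun _ ⟨_, h1, _⟩ => ⟨_, h1, rfl⟩

theorem Hs_ins (S p κ θ b) :
    Hs (insert (p, κ) S) θ b = if κ θ = b then insert p (Hs S θ b) else Hs S θ b := by
  ext q
  split_ifs with h <;> simp only [Hs, mem_insert_iff, mem_ofPred_eq, Prod.mk.injEq] <;> grind

theorem Good.add {S} (h : Good S) {p : V} {κ : ℝ → Bool} (h1 : ∀ x ∈ S, x.1 ≠ p)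
    (h2 : ∀ θ, ∀ x ∈ S, ab θ x.1 = ab θ p → x.2 θ ≠ κ θ)
    (h3 : ∀ θ, p ∉ span ℚ (Hs S θ (κ θ))) : Good (insert (p, κ) S) := by
  refine ⟨fun θ b => ?_, ?_⟩
  · rw [Hs_ins]
    split_ifs with e
    · exact (h.1 θ b).id_insert (e ▸ h3 θ)
    · exact h.1 θ b
  · rintro x (rfl | hx) y (rfl | hy) e
    · exact (e rfl).elim
    · exact ⟨(h1 y hy).symm, fun θ a => (h2 θ y hy a.symm).symm⟩
    · exact ⟨h1 x hx, fun θ => h2 θ x hx⟩
    · exact h.2 x hx y hy e

/-- `p` is on no line through two points of `S` -/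
def Gen (S : Set X) (p : V) : Prop := ∀ x ∈ S, ∀ y ∈ S, x ≠ y → det (y.1 - x.1) (p - x.1) ≠ 0

theorem Gen.col {S p} (h : Gen S p) (θ : ℝ) :
    ∃ k, ∀ x ∈ S, ab θ x.1 = ab θ p → x.2 θ ≠ k := by
  by_cases e : ∃ y ∈ S, ab θ y.1 = ab θ p
  · obtain ⟨y, hy, e⟩ := e
    refine ⟨!y.2 θ, fun x hx e' => ?_⟩
    obtain rfl : x = y := by_contra fun n => h x hx y hy n (det_of_ab (e.trans e'.symm) e'.symm)
    simp
  · exact ⟨true, fun x hx e' => (e ⟨x, hx, e'⟩).elim⟩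

def lines (S : Set X) : Set (V × V) := image2 (fun x y => (y.1 - x.1, x.1)) S S

theorem mk_lines {S : Set X} (h : #S < 𝔠) : #(lines S) < 𝔠 :=
  mk_image2_le.trans_lt (mul_lt_of_lt aleph0_le_continuum h h)

theorem mk_sp {S : Set X} (h : #S < 𝔠) (l : List V) :
    #(span ℚ (Prod.fst '' S ∪ {x | x ∈ l}) : Set V) < 𝔠 :=
  mk_span_lt aleph0_lt_continuum ((mk_union_le _ _).trans_lt (add_lt_of_lt aleph0_le_continuum
    (mk_image_le.trans_lt h) (l.finite_toSet.lt_aleph0.trans aleph0_lt_continuum)))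

theorem line_task {S} (h : Good S) (hS : #S < 𝔠) (θ t : ℝ) (b : Bool) : ∃ T : Set X,
    T.Countable ∧ Good (S ∪ T) ∧ ∃ x ∈ S ∪ T, ab θ x.1 = t ∧ x.2 θ = b := by
  by_cases hd : ∃ x ∈ S, ab θ x.1 = t ∧ x.2 θ = b
  · exact ⟨∅, by simp, by simpa using h, by simpa using hd⟩
  have k : ∀ s : ℝ, ab θ ((t * cos θ, -t * sin θ) + s • (sin θ, cos θ)) = t := fun s => by
    simp only [ab, Prod.smul_mk, Prod.mk_add_mk, smul_eq_mul]
    linear_combination t * sin_sq_add_cos_sq θ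
  obtain ⟨s, h1, h2⟩ := avoid_line (t * cos θ, -t * sin θ) (sin θ, cos θ) (fun e => by
    have := sin_sq_add_cos_sq θ
    simp only [Prod.mk_eq_zero] at e
    simp [e] at this) ((mk_le_mk_of_subset (sep_subset _ fun z => z.1 ≠ 0)).trans_lt (mk_lines hS))
    (mk_sp hS []) (by
      rintro _ ⟨⟨x, hx, y, hy, rfl⟩, n⟩
      by_contra e
      push Not at e
      have a := e 0
      have c := e 1
      have k0 := k 0
      have n' : x ≠ y := by rintro rfl; simp at n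
      have e1 : ab θ x.1 = ab θ y.1 := by
        simp [det, ab] at a c ⊢
        linarith
      have e2 : ab θ x.1 = t := by
        rw [ne_eq, Prod.ext_iff, not_and_or] at n
        simp [det, ab] at a e1 k0 n ⊢
        rcases n with n | n <;> refine mul_left_cancel₀ n ?_
        · linear_combination sin θ * a + (t * cos θ - x.1.1) * e1 + (y.1.1 - x.1.1) * k0
        · linear_combination cos θ * a - (t * sin θ + x.1.2) * e1 + (y.1.2 - x.1.2) * k0
      have := (h.2 x hx y hy n').2 θ e1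
      have h3 : x.2 θ ≠ b := fun e => hd ⟨x, hx, e2, e⟩
      have h4 : y.2 θ ≠ b := fun e => hd ⟨y, hy, e1 ▸ e2, e⟩
      exact this (bool3 h3 h4))
  have k := k s
  generalize (t * cos θ, -t * sin θ) + s • (sin θ, cos θ) = p at h1 h2 k
  have g : Gen S p := fun x hx y hy n =>
    h2 _ ⟨⟨x, hx, y, hy, rfl⟩, sub_ne_zero.2 (h.2 x hx y hy n).1.symm⟩
  have : ∀ θ', ∃ c, (θ' = θ → c = b) ∧ ∀ x ∈ S, ab θ' x.1 = ab θ' p → x.2 θ' ≠ c := fun θ' => by
    by_cases e : θ' = θ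
    · exact ⟨b, fun _ => rfl, fun x hx e' e'' => hd ⟨x, hx, by rw [← k, ← e, e'], e ▸ e''⟩⟩
    · exact (g.col θ').imp fun c hc => ⟨fun e' => (e e').elim, hc⟩
  choose κ k1 k2 using this
  refine ⟨{(p, κ)}, by simp, ?_, _, Or.inr rfl, k, k1 θ rfl⟩
  rw [union_singleton]
  exact h.add (fun x hx e => h1 (subset_span (Or.inl ⟨x, hx, e⟩))) k2
    fun θ e => h1 (span_mono ((Hs_sub _ _ _).trans subset_union_left) e)

theorem coef {E : Type} [AddCommGroup E] [Module ℚ E] {W : Submodule ℚ E} {p u : E} {r : ℚ}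
    (hp : p ∉ W) (hu : u ∈ W) (e : (r + 1) • p = u) : r = -1 := by_contra fun n =>
  hp ((smul_mem_iff W fun h => n (eq_neg_of_add_eq_zero_left h)).1 (e ▸ hu))

theorem three {E : Type} [AddCommGroup E] [Module ℚ E] {M A : Set E} (hA : A ⊆ M) {v p p' : E}
    (a1 : p ∉ span ℚ (M ∪ {x | x ∈ [v]})) (b1 : p' ∉ span ℚ (M ∪ {x | x ∈ [v, p]})) :
    (v ∉ span ℚ A → v - p - p' ∉ span ℚ (insert p' (insert p A))) ∧
    v - p - p' ∉ span ℚ (insert p' A) ∧ v - p - p' ∉ span ℚ (insert p A) := by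
  have sM : ∀ l : List E, span ℚ A ≤ span ℚ (M ∪ {x | x ∈ l}) := fun _ =>
    span_mono (hA.trans subset_union_left)
  have hv : v ∈ span ℚ (M ∪ {x | x ∈ [v, p]}) := subset_span (Or.inr (by simp))
  have hp : p ∈ span ℚ (M ∪ {x | x ∈ [v, p]}) := subset_span (Or.inr (by simp))
  have hv' : v ∈ span ℚ (M ∪ {x | x ∈ [v]}) := subset_span (Or.inr (by simp))
  simp only [mem_span_insert]
  refine ⟨?_, ?_, ?_⟩
  · rintro hd ⟨r, _, ⟨s, z, e, rfl⟩, e1⟩
    obtain rfl := coef b1 (sub_mem (sub_mem hv hp) (add_mem (smul_mem _ s hp) (sM _ e))) (r := r)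
      (by linear_combination (norm := module) -e1)
    obtain rfl := coef a1 (sub_mem hv' (sM _ e)) (r := s)
      (by linear_combination (norm := module) -e1)
    exact hd (by rwa [show v = z by linear_combination (norm := module) e1])
  · rintro ⟨r, z, e, e1⟩
    obtain rfl := coef b1 (sub_mem (sub_mem hv hp) (sM _ e)) (r := r)
      (by linear_combination (norm := module) -e1)
    exact a1 (by
      rw [show p = v - z by linear_combination (norm := module) -e1]; exact sub_mem hv' (sM _ e))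
  · rintro ⟨r, z, e, e1⟩
    refine b1 ?_
    rw [show p' = v - p - (r • p + z) by linear_combination (norm := module) -e1]
    exact sub_mem (sub_mem hv hp) (add_mem (smul_mem _ r hp) (sM _ e))

theorem span_task {S} (h : Good S) (hS : #S < 𝔠) (θ : ℝ) (b : Bool) (v : V) : ∃ T : Set X,
    T.Countable ∧ Good (S ∪ T) ∧ v ∈ span ℚ (Hs (S ∪ T) θ b) := by
  by_cases hd : v ∈ span ℚ (Hs S θ b)
  · exact ⟨∅, by simp, by simpa using h, by simpa using hd⟩
  have c0 := aleph0_le_continuum.{0}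
  have c1 : ∀ {α β : Type} {A : Set α} {a : α} (f : α → β), #A < 𝔠 → #(f '' insert a A) < 𝔠 :=
    fun f h => mk_image_le.trans_lt (mk_insert_le.trans_lt
      (add_lt_of_lt c0 h (one_lt_aleph0.trans_le c0)))
  have cu : ∀ {A B : Set (V × V)}, #A < 𝔠 → #B < 𝔠 → #(A ∪ B : Set _) < 𝔠 := fun h h' =>
    (mk_union_le _ _).trans_lt (add_lt_of_lt c0 h h')
  let d : V := (sin θ, cos θ)
  have hd0 : d ≠ 0 := fun e => by
    have := sin_sq_add_cos_sq θ
    simp only [d, Prod.mk_eq_zero] at e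
    simp [e] at this
  have dd : ∀ {p q}, det d (p - q) ≠ 0 → ab θ q ≠ ab θ p := fun h e => h (by
    simp [det, ab, d] at e ⊢; linarith)
  let M := Prod.fst '' S
  have hM : #M < 𝔠 := mk_image_le.trans_lt hS
  obtain ⟨p, a1, a2⟩ := avoid (cu (mk_lines hS) (c1 (a := 0) (fun q => (d, q)) hM)) (mk_sp hS [v])
  have pM : ∀ q ∈ M, q ≠ p := fun q hq e => a1 (subset_span (Or.inl (e ▸ hq)))
  let L := image2 (fun q q' => (q' - q, q)) (insert p M) (insert p M)
  have hL : #L < 𝔠 := by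
    have := c1 (a := p) id hM
    rw [image_id] at this
    exact mk_image2_le.trans_lt (mul_lt_of_lt c0 this this)
  let w := v - p
  obtain ⟨p', b1, b2⟩ := avoid (cu (cu (cu (cu (cu (cu hL (c1 (a := p) (fun q => (d, q)) hM))
    (mk_image2_le.trans_lt (mul_lt_of_lt c0 hM hM) : #(image2 (fun q q' => (p - q, q')) M M) < 𝔠))
    (c1 (a := 0) (fun z => (z.1, w - z.2)) hL))
    (c1 (a := p) (fun q => ((1 / 2 : ℝ) • w - q, q)) hM)) (c1 (a := p) (fun q => (d, w - q)) hM))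
    (c1 (a := 0) (fun _ => (d, (1 / 2 : ℝ) • w)) hM)) (mk_sp hS [v, p])
  simp only [mem_union, or_imp, forall_and] at a2 b2
  obtain ⟨⟨⟨⟨⟨⟨b2, b3⟩, b4⟩, b5⟩, b6⟩, b7⟩, b8⟩ := b2
  have g : Gen S p := fun x hx y hy n =>
    a2.1 _ _ ⟨x, hx, y, hy, rfl⟩ (sub_ne_zero.2 (h.2 x hx y hy n).1.symm)
  have g' : Gen S p' := fun x hx y hy n => b2 _ _ ⟨_, Or.inr ⟨x, hx, rfl⟩, _,
    Or.inr ⟨y, hy, rfl⟩, rfl⟩ (sub_ne_zero.2 (h.2 x hx y hy n).1.symm)
  have : ∀ θ', ∃ c c', (θ' = θ → c = b ∧ c' = b) ∧ (θ' ≠ θ → c ≠ c') ∧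
      (∀ x ∈ S, ab θ' x.1 = ab θ' p → x.2 θ' ≠ c) ∧
      (∀ x ∈ S, ab θ' x.1 = ab θ' p' → x.2 θ' ≠ c') := fun θ' => by
    by_cases e : θ' = θ
    · subst e
      exact ⟨b, b, by simp, by simp,
        fun x hx e => (dd (a2.2 _ _ ⟨_, Or.inr ⟨x, hx, rfl⟩, rfl⟩ hd0) e).elim,
        fun x hx e => (dd (b3 _ _ ⟨_, Or.inr ⟨x, hx, rfl⟩, rfl⟩ hd0) e).elim⟩
    by_cases e' : ∃ x ∈ S, ab θ' x.1 = ab θ' p
    · obtain ⟨x, hx, e'⟩ := e'
      obtain ⟨c, hc⟩ := g.col θ'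
      exact ⟨c, !c, by simp [e], by simp, hc, fun y hy e'' => (b4 _ _ ⟨_, ⟨x, hx, rfl⟩, _,
        ⟨y, hy, rfl⟩, rfl⟩ (sub_ne_zero.2 (pM _ ⟨x, hx, rfl⟩).symm)
          (det_of_ab e'.symm e''.symm)).elim⟩
    · obtain ⟨c, hc⟩ := g'.col θ'
      exact ⟨!c, c, by simp [e], by simp, fun x hx a => (e' ⟨x, hx, a⟩).elim, hc⟩
  choose κ κ' k1 k2 k3 k4 using this
  have G1 := h.add (fun x hx => pM _ ⟨x, hx, rfl⟩) k3
    fun θ e => a1 (span_mono ((Hs_sub _ _ _).trans subset_union_left) e)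
  have G2 := G1.add (p := p') (κ := κ') (by
      rintro x (rfl | hx) e
      exacts [b1 (subset_span (Or.inr (by simp [← e]))), b1 (subset_span (Or.inl ⟨x, hx, e⟩))])
    (by
      rintro θ' x (rfl | hx) e
      · by_cases e' : θ' = θ
        · exact (dd (b3 _ _ ⟨_, Or.inl rfl, rfl⟩ hd0) (e' ▸ e)).elim
        · exact k2 _ e'
      · exact k4 _ x hx e)
    fun θ e => b1 (span_mono ((Hs_sub _ _ _).trans (by
      rintro _ ⟨x, rfl | hx, rfl⟩
      exacts [Or.inr (by simp), Or.inl ⟨x, hx, rfl⟩])) e)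
  have m1 : ∀ x ∈ insert (p, κ) S, x.1 ∈ insert p M := by
    rintro x (rfl | hx)
    exacts [Or.inl rfl, Or.inr ⟨x, hx, rfl⟩]
  have n6 : ∀ q ∈ insert p M, det (q - p') (w - p' - p') ≠ 0 := fun q hq e =>
    b6 _ _ ⟨q, hq, rfl⟩ (fun e => a1 (by
      have hv : v ∈ span ℚ (M ∪ {x | x ∈ [v]}) := subset_span (Or.inr (by simp))
      have e' : v - p = (2 : ℚ) • q := by
        simp only [Prod.ext_iff, w] at e ⊢; simp [Rat.smul_def] at e ⊢; constructor <;> linarith [e.1, e.2]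
      rcases hq with rfl | hq
      · have : q = (1 / 3 : ℚ) • v := by
          simp only [Prod.ext_iff] at e' ⊢; simp [Rat.smul_def] at e' ⊢; constructor <;> linarith [e'.1, e'.2]
        exact this ▸ smul_mem _ _ hv
      · rw [show p = v - (2 : ℚ) • q by rw [← e']; abel]
        exact sub_mem hv (smul_mem _ _ (subset_span (Or.inl hq)))))
      (by simp [det] at e ⊢; linarith)
  have g3 : Gen (insert (p', κ') (insert (p, κ) S)) (w - p') := by
    rintro x (rfl | hx) y (rfl | hy) n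
    · exact (n rfl).elim
    · exact n6 _ (m1 y hy)
    · exact fun e => n6 _ (m1 x hx) (by simp [det] at e ⊢; linarith)
    · exact fun e => b5 _ _ ⟨_, Or.inr ⟨_, m1 x hx, _, m1 y hy, rfl⟩, rfl⟩
        (sub_ne_zero.2 (G1.2 x hx y hy n).1.symm) (by simp [det] at e ⊢; linarith)
  have n7 : ∀ x ∈ insert (p', κ') (insert (p, κ) S), ab θ x.1 ≠ ab θ (w - p') := by
    rintro x (rfl | hx) e
    · exact dd (b8 _ _ ⟨_, Or.inl rfl, rfl⟩ hd0) (by simp [ab] at e ⊢; linarith)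
    · exact dd (b7 _ _ ⟨_, m1 x hx, rfl⟩ hd0) (by simp [ab] at e ⊢; linarith)
  have : ∀ θ', ∃ c, (θ' = θ → c = b) ∧ ∀ x ∈ insert (p', κ') (insert (p, κ) S),
      ab θ' x.1 = ab θ' (w - p') → x.2 θ' ≠ c := fun θ' => by
    by_cases e : θ' = θ
    · exact ⟨b, fun _ => rfl, fun x hx e' => (n7 x hx (e ▸ e')).elim⟩
    · exact (g3.col θ').imp fun c hc => ⟨fun e' => (e e').elim, hc⟩
  choose μ l1 l2 using this
  have hb : Hs (insert (p', κ') (insert (p, κ) S)) θ b = insert p' (insert p (Hs S θ b)) := by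
    simp [Hs_ins, k1]
  have G3 := G2.add (fun x hx e => n7 x hx (e ▸ rfl)) l2 fun θ' => by
    have t := three (Hs_sub S θ' (μ θ')) a1 b1
    by_cases e' : θ' = θ
    · subst e'
      rw [l1 _ rfl] at t ⊢
      exact hb ▸ t.1 hd
    · have := k2 _ e'
      rw [Hs_ins, Hs_ins]
      by_cases e1 : κ' θ' = μ θ'
      · rw [if_pos e1, if_neg (e1 ▸ this)]
        exact t.2.1
      · rw [if_neg e1, if_pos (bool3 this (Ne.symm e1))]
        exact t.2.2
  refine ⟨{(w - p', μ), (p', κ'), (p, κ)}, by simp, by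
    simpa [union_insert, union_singleton] using G3, ?_⟩
  rw [show v = w - p' + p' + p by simp [w]]
  exact add_mem (add_mem (subset_span ⟨μ, by simp, l1 _ rfl⟩)
    (subset_span ⟨κ', by simp, (k1 _ rfl).2⟩)) (subset_span ⟨κ, by simp, (k1 _ rfl).1⟩)

theorem exists_good : ∃ S, Good S ∧ (∀ θ t b, ∃ x ∈ S, ab θ x.1 = t ∧ x.2 θ = b) ∧
    ∀ θ b, span ℚ (Hs S θ b) = ⊤ := by
  obtain ⟨S, h1, h2⟩ := exists_limit (ι := (ℝ × ℝ × Bool) ⊕ (ℝ × Bool × V)) 𝔠 aleph0_lt_continuum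
    (by simp [mk_real]) Good (Sum.elim (fun i S => ∃ x ∈ S, ab i.1 x.1 = i.2.1 ∧ x.2 i.1 = i.2.2)
      fun i S => i.2.2 ∈ span ℚ (Hs S i.1 i.2.1)) ⟨by simp [Hs], by simp⟩
    (fun S h => ⟨fun θ b => linearIndepOn_of_finite _ fun t ht hf => by
      choose κ k1 k2 using fun x : t => ht x.2
      have := hf.to_subtype
      exact ((h (range fun x : t => (x.1, κ x)) (range_subset_iff.2 k1) (finite_range _)).1
        θ b).mono fun x hx => ⟨_, ⟨⟨x, hx⟩, rfl⟩, k2 _⟩,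
      fun x hx y hy => (h {x, y} (pair_subset hx hy) (by simp)).2 x (by simp) y (by simp)⟩)
    (fun S T e h => ⟨fun θ b => (h.1 θ b).mono (Hs_mono e θ b),
      fun x hx y hy => h.2 x (e hx) y (e hy)⟩)
    (by
      rintro (i | i) S T e h
      exacts [h.imp fun x hx => ⟨e hx.1, hx.2⟩, span_mono (Hs_mono e _ _) h])
    (by
      rintro (i | i) S h hS
      exacts [line_task h hS _ _ _, span_task h hS _ _ _])
  exact ⟨S, h1, fun θ t b => h2 (.inl (θ, t, b)),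
    fun θ b => eq_top_iff.2 fun v _ => h2 (.inr (θ, b, v))⟩

noncomputable def rot (θ : ℝ) (p : V) : V :=
  (cos θ * p.1 - sin θ * p.2, sin θ * p.1 + cos θ * p.2)

theorem main : ∃ M : Set V,
    (∀ a b c : ℝ, (a ≠ 0 ∨ b ≠ 0) → {p ∈ M | a * p.1 + b * p.2 = c}.encard = 2) ∧
    ∀ θ, ∃ f : Bool → ℝ → ℝ, (∀ b, LinearIndepOn ℚ id (range fun x => (x, f b x)) ∧
      span ℚ (range fun x => (x, f b x)) = ⊤) ∧
      rot θ '' M = (range fun x => (x, f true x)) ∪ range fun x => (x, f false x) := by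
  obtain ⟨S, h1, h2, h3⟩ := exists_good
  have u : ∀ θ, ∀ x ∈ S, ∀ y ∈ S, ab θ x.1 = ab θ y.1 → x.2 θ = y.2 θ → x = y :=
    fun θ x hx y hy e e' => by_contra fun n => (h1.2 x hx y hy n).2 θ e e'
  refine ⟨Prod.fst '' S, fun a b c h => ?_, fun θ => ?_⟩
  · have hz : (⟨a, -b⟩ : ℂ) ≠ 0 := by simpa [Complex.ext_iff, imp_iff_not_or] using h
    have e1 := Complex.cos_arg hz
    have e2 := Complex.sin_arg ⟨a, -b⟩
    have e3 := norm_ne_zero_iff.2 hz
    generalize Complex.arg _ = θ at e1 e2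
    generalize ‖(⟨a, -b⟩ : ℂ)‖ = r at e1 e2 e3
    have k : ∀ p : V, a * p.1 + b * p.2 = c ↔ ab θ p = c / r := fun p => by
      simp only [ab, e1, e2]; field_simp; ring_nf
    obtain ⟨x, hx, x1, x2⟩ := h2 θ (c / r) true
    obtain ⟨y, hy, y1, y2⟩ := h2 θ (c / r) false
    rw [← encard_pair (h1.2 x hx y hy (by rintro rfl; simp_all)).1]
    congr 1
    ext p
    simp only [k, mem_ofPred_eq, mem_insert_iff, mem_singleton_iff]
    constructor
    · rintro ⟨⟨z, hz, rfl⟩, e⟩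
      cases e' : z.2 θ
      · exact Or.inr (by rw [u θ z hz y hy (e.trans y1.symm) (e'.trans y2.symm)])
      · exact Or.inl (by rw [u θ z hz x hx (e.trans x1.symm) (e'.trans x2.symm)])
    · rintro (rfl | rfl)
      exacts [⟨⟨x, hx, rfl⟩, x1⟩, ⟨⟨y, hy, rfl⟩, y1⟩]
  · choose g g1 g2 g3 using h2 θ
    let R : V ≃ₗ[ℚ] V :=
      { toFun := rot θ
        invFun := rot (-θ)
        map_add' := fun p q => by simp [rot]; constructor <;> ring
        map_smul' := fun r q => by simp [rot, Rat.smul_def]; constructor <;> ring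
        left_inv := fun p => by
          ext <;> simp [rot]
          · linear_combination p.1 * sin_sq_add_cos_sq θ
          · linear_combination p.2 * sin_sq_add_cos_sq θ
        right_inv := fun p => by
          ext <;> simp [rot]
          · linear_combination p.1 * sin_sq_add_cos_sq θ
          · linear_combination p.2 * sin_sq_add_cos_sq θ }
    have e : ∀ b, (range fun t => (t, (rot θ (g t b).1).2)) = R '' Hs S θ b := fun b => by
      ext p
      constructor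
      · rintro ⟨t, rfl⟩
        exact ⟨_, ⟨_, g1 t b, g3 t b⟩, Prod.ext (g2 t b) rfl⟩
      · rintro ⟨q, ⟨κ, k1, k2⟩, rfl⟩
        refine ⟨ab θ q, ?_⟩
        simp only [u θ _ (g1 (ab θ q) b) _ k1 (g2 _ _) ((g3 _ _).trans k2.symm)]
        rfl
    refine ⟨fun b t => (rot θ (g t b).1).2, fun b => ?_, ?_⟩
    · rw [e]
      exact ⟨(h1.1 θ b).id_imageₛ (f := R.toLinearMap) R.injective.injOn, by
        rw [show (R : V → V) = R.toLinearMap from rfl, span_image, h3, Submodule.map_top,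
          R.range]⟩
    · rw [e, e, ← image_union]
      refine congrArg _ (subset_antisymm ?_ (union_subset (Hs_sub _ _ _) (Hs_sub _ _ _)))
      rintro _ ⟨x, hx, rfl⟩
      cases e' : x.2 θ
      exacts [Or.inr ⟨_, hx, e'⟩, Or.inl ⟨_, hx, e'⟩]

end Pool.Agent.H.MP_c030b7_lc
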